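import Mathlib
import Pool.Agent.Lib.MP_86e60f_al.RegSeq

set_option autoImplicit false

open IsLocalRing RingTheory.Sequence

namespace Pool.Agent.Lib.MP_86e60f_al.Qd

variable {S : Type} [CommRing S] [IsLocalRing S] {x y z : S}

theorem decomp (hmax : maximalIdeal S = Ideal.span {x, y, z}) (k : ℕ) :
    ∀ r ∈ maximalIdeal S ^ (k + 1), ∃ α ∈ maximalIdeal S ^ k, ∃ β ∈ maximalIdeal S ^ k, ∃ γ,
      r = α * x + β * y + γ * z ^ (k + 1) := by
  have h0 : ∀ t ∈ maximalIdeal S, ∃ a b c, t = a * x + b * y + c * z := fun t ht => by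
    rw [hmax, Ideal.mem_span_insert] at ht
    obtain ⟨a, w, hw, rfl⟩ := ht
    obtain ⟨b, c, rfl⟩ := Ideal.mem_span_pair.1 hw
    exact ⟨a, b, c, by ring⟩
  have hz : z ∈ maximalIdeal S := hmax ▸ Ideal.subset_span (by simp)
  induction k with
  | zero =>
    intro r hr
    obtain ⟨a, b, c, rfl⟩ := h0 r (by simpa using hr)
    exact ⟨a, by simp, b, by simp, c, by simp⟩
  | succ k ih =>
    intro r hr
    rw [pow_succ] at hr
    refine Submodule.mul_induction_on hr (fun s hs t ht => ?_) ?_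
    · obtain ⟨α, hα, β, hβ, γ, rfl⟩ := ih s hs
      have h1 := Ideal.pow_mem_pow hz (k + 1)
      obtain ⟨a, b, c, hc⟩ := h0 t ht
      refine ⟨α * t + γ * a * z ^ (k + 1), add_mem (pow_succ (maximalIdeal S) k ▸
        Ideal.mul_mem_mul hα ht) (Ideal.mul_mem_left _ _ h1), β * t + γ * b * z ^ (k + 1),
        add_mem (pow_succ (maximalIdeal S) k ▸ Ideal.mul_mem_mul hβ ht)
          (Ideal.mul_mem_left _ _ h1), γ * c, ?_⟩
      linear_combination γ * z ^ (k + 1) * hc
    · rintro _ _ ⟨α, hα, β, hβ, γ, rfl⟩ ⟨α', hα', β', hβ', γ', rfl⟩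
      exact ⟨α + α', add_mem hα hα', β + β', add_mem hβ hβ', γ + γ', by ring⟩

theorem perturb [IsNoetherianRing S] (hmax : maximalIdeal S = Ideal.span {x, y, z})
    (hreg : IsRegular S [x, y, z]) {u z' : S} (hu : IsUnit u)
    (h : z' - u * z ∈ maximalIdeal S ^ 2) :
    maximalIdeal S = Ideal.span {z', x, y} ∧ IsRegular S [z', x, y] := by
  have hx : x ∈ maximalIdeal S := hmax ▸ Ideal.subset_span (by simp)
  have hy : y ∈ maximalIdeal S := hmax ▸ Ideal.subset_span (by simp)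
  have hz : z ∈ maximalIdeal S := hmax ▸ Ideal.subset_span (by simp)
  obtain ⟨α, -, β, -, γ, h1⟩ := decomp hmax 1 _ h
  obtain ⟨v, hv⟩ : IsUnit (u + γ * z) := by
    by_contra h2
    have h3 := sub_mem ((mem_maximalIdeal _).2 h2) (Ideal.mul_mem_left _ γ hz)
    rw [add_sub_cancel_right] at h3
    exact (mem_maximalIdeal _).1 h3 hu
  have h2 : z' = v * z + α * x + β * y := by rw [hv]; linear_combination h1
  have hz' : z' ∈ maximalIdeal S := h2 ▸ add_mem (add_mem (Ideal.mul_mem_left _ _ hz)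
    (Ideal.mul_mem_left _ _ hx)) (Ideal.mul_mem_left _ _ hy)
  have h3 : maximalIdeal S = Ideal.span {z', x, y} := by
    refine le_antisymm (hmax.le.trans (Ideal.span_le.2 ?_)) (Ideal.span_le.2 ?_)
    · rintro t (rfl | rfl | rfl)
      · exact Ideal.subset_span (by simp)
      · exact Ideal.subset_span (by simp)
      · rw [show t = (↑v⁻¹ : S) * (z' - α * x - β * y) by
          rw [h2, ← v.inv_mul_cancel_left t]; congr 1; simp only [v.inv_mul_cancel_left]; ring]
        exact Ideal.mul_mem_left _ _ (sub_mem (sub_mem (Ideal.subset_span (by simp))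
          (Ideal.mul_mem_left _ _ (Ideal.subset_span (by simp))))
          (Ideal.mul_mem_left _ _ (Ideal.subset_span (by simp))))
    · rintro t (rfl | rfl | rfl)
      exacts [hz', hx, hy]
  obtain ⟨r1, r2, r3, -⟩ := (isWeaklyRegular_self_iff _).1 hreg.1
  have h4 : IsWeaklyRegular S [x, y, z'] := (isWeaklyRegular_self_iff _).2 ⟨r1, r2, fun t ht => by
    refine r3 t ((Ideal.unit_mul_mem_iff_mem _ v.isUnit).1 ?_)
    rw [show v * (z * t) = z' * t - α * t * x - β * t * y by rw [h2]; ring]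
    exact sub_mem (sub_mem ht (Ideal.mul_mem_left _ _ (Ideal.mem_sup_left (Ideal.mem_sup_right
      (Ideal.mem_span_singleton_self x))))) (Ideal.mul_mem_left _ _
        (Ideal.mem_sup_right (Ideal.mem_span_singleton_self y))), trivial⟩
  refine ⟨h3, (IsLocalRing.isRegular_iff_isWeaklyRegular_of_subset_maximalIdeal
    (by simpa using ⟨hz', hx, hy⟩)).2 ?_⟩
  exact IsLocalRing.isWeaklyRegular_of_perm_of_subset_maximalIdeal h4
    (((List.Perm.swap z' y []).cons x).trans (List.Perm.swap z' x [y]))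
    (by simpa using ⟨hx, hy, hz'⟩)

theorem notMem_sq [IsNoetherianRing S] (hmax : maximalIdeal S = Ideal.span {x, y, z})
    (hreg : IsRegular S [x, y, z]) {u a b : S} (h : u * z - a * x - b * y ∈ maximalIdeal S ^ 2) :
    u ∈ maximalIdeal S := by
  by_contra hu
  obtain ⟨h1, h2⟩ := perturb hmax hreg (z' := a * x + b * y) (notMem_maximalIdeal.1 hu)
    (by simpa [sub_sub] using neg_mem h)
  obtain ⟨-, -, r3, -⟩ := (isWeaklyRegular_self_iff _).1 (IsLocalRing.isRegular_of_perm h2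
    ((List.Perm.swap x _ [y]).trans ((List.Perm.swap y _ []).cons x))).1
  have h3 := r3 1 (by
    rw [mul_one]
    exact add_mem (Ideal.mul_mem_left _ _ (Ideal.mem_sup_left (Ideal.mem_sup_right
      (Ideal.mem_span_singleton_self x)))) (Ideal.mul_mem_left _ _
        (Ideal.mem_sup_right (Ideal.mem_span_singleton_self y))))
  refine (maximalIdeal.isMaximal S).ne_top ((Ideal.eq_top_iff_one _).2 ((sup_le (sup_le bot_le ?_)
    ?_ : _ ≤ maximalIdeal S) h3)) <;>
  exact hmax ▸ Ideal.span_mono (by simp)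

theorem notMem_cube [IsNoetherianRing S] (hmax : maximalIdeal S = Ideal.span {x, y, z})
    (hreg : IsRegular S [x, y, z]) (c : S) : x * y + c * z ^ 2 ∉ maximalIdeal S ^ 3 := fun h => by
  obtain ⟨α, hα, β, hβ, γ, h1⟩ := decomp hmax 2 _ h
  have p1 : IsRegular S [z, y, x] := IsLocalRing.isRegular_of_perm hreg
    (List.reverse_perm [z, y, x])
  obtain ⟨-, r2, r3, -⟩ := (isWeaklyRegular_self_iff _).1 p1.1
  rw [bot_sup_eq] at r2 r3
  rw [← Ideal.span_insert] at r3
  obtain ⟨t, s, h2⟩ := Ideal.mem_span_pair.1 (r3 α (Ideal.mem_span_pair.2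
    ⟨c * z - γ * z ^ 2, x - β, by linear_combination h1⟩))
  have h3 : s ∈ maximalIdeal S := notMem_sq (x := z) (y := x) (z := y)
    (by rw [hmax]; congr 1; ext; simp; tauto)
    (IsLocalRing.isRegular_of_perm p1 ((List.Perm.swap x y []).cons z)) (a := -t) (b := 0)
    (by rwa [show s * y - -t * z - 0 * x = α by linear_combination h2])
  obtain ⟨w, h4⟩ := Ideal.mem_span_singleton'.1 (r2 (x * (1 - s) - β)
    (Ideal.mem_span_singleton'.2 ⟨t * x + γ * z ^ 2 - c * z, by linear_combination x * h2 - h1⟩))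
  have h5 : 1 - s ∈ maximalIdeal S := notMem_sq (x := z) (y := y) (z := x)
    (by rw [hmax]; congr 1; ext; simp; tauto) p1 (a := w) (b := 0)
    (by rwa [show (1 - s) * x - w * z - 0 * y = β by linear_combination -h4])
  exact (maximalIdeal.isMaximal S).ne_top ((Ideal.eq_top_iff_one _).2 (by simpa using add_mem h5 h3))

theorem limit [IsNoetherianRing S] [IsAdicComplete (maximalIdeal S) S]
    (hmax : maximalIdeal S = Ideal.span {x, y, z}) (F : S) (J : Ideal S) (n : ℕ)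
    (hstep : ∀ k, ∀ a b γ, a - x ∈ maximalIdeal S ^ 2 → b - y ∈ maximalIdeal S ^ 2 →
      F - a * b - γ * z ^ (n + k + 3) ∈ J ⊔ maximalIdeal S ^ (n + k + 4) →
      γ * z ^ (n + k + 3) ∈ J ⊔ maximalIdeal S ^ (n + k + 4))
    {a0 b0 : S} (ha : a0 - x ∈ maximalIdeal S ^ 2) (hb : b0 - y ∈ maximalIdeal S ^ 2)
    (h0 : F - a0 * b0 ∈ J ⊔ maximalIdeal S ^ (n + 3)) :
    ∃ a b, a - x ∈ maximalIdeal S ^ 2 ∧ b - y ∈ maximalIdeal S ^ 2 ∧ F - a * b ∈ J := by
  let P : ℕ → S × S → Prop := fun k p => p.1 - x ∈ maximalIdeal S ^ 2 ∧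
    p.2 - y ∈ maximalIdeal S ^ 2 ∧ F - p.1 * p.2 ∈ J ⊔ maximalIdeal S ^ (n + k + 3)
  have hle : ∀ {i j : ℕ}, i ≤ j → ∀ {t}, t ∈ maximalIdeal S ^ j → t ∈ maximalIdeal S ^ i :=
    fun h _ ht => Ideal.pow_le_pow_right h ht
  have hmul : ∀ {i j : ℕ} {s t}, s ∈ maximalIdeal S ^ i → t ∈ maximalIdeal S ^ j →
      s * t ∈ maximalIdeal S ^ (i + j) := fun hs ht => pow_add (maximalIdeal S) _ _ ▸
    Ideal.mul_mem_mul hs ht
  have h1 : ∀ k (p : {p // P k p}), ∃ q : {p // P (k + 1) p},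
      p.1.1 - q.1.1 ∈ maximalIdeal S ^ k ∧ p.1.2 - q.1.2 ∈ maximalIdeal S ^ k := by
    rintro k ⟨⟨a, b⟩, ha, hb, h⟩
    obtain ⟨j, hj, r, hr, h2⟩ := Submodule.mem_sup.1 h
    obtain ⟨α, hα, β, hβ, γ, rfl⟩ := decomp hmax (n + k + 2) r hr
    have ha' : a + β - x ∈ maximalIdeal S ^ 2 := by
      rw [add_sub_right_comm]; exact add_mem ha (hle (by omega) hβ)
    have hb' : b + α - y ∈ maximalIdeal S ^ 2 := by
      rw [add_sub_right_comm]; exact add_mem hb (hle (by omega) hα)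
    have h3 : F - (a + β) * (b + α) - γ * z ^ (n + k + 3) ∈
        J ⊔ maximalIdeal S ^ (n + k + 4) := by
      rw [show F - (a + β) * (b + α) - γ * z ^ (n + k + 3) =
        j - (α * (a - x) + β * (b - y) + α * β) by simp only at h2; linear_combination -h2]
      exact sub_mem (Ideal.mem_sup_left hj) (Ideal.mem_sup_right (add_mem (add_mem
        (hle (by omega) (hmul hα ha)) (hle (by omega) (hmul hβ hb))) (hle (by omega) (hmul hα hβ))))
    refine ⟨⟨(a + β, b + α), ha', hb', ?_⟩, ?_, ?_⟩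
    · have h4 := add_mem h3 (hstep k _ _ γ ha' hb' h3)
      rwa [sub_add_cancel] at h4
    · simpa using hle (by omega) hβ
    · simpa using hle (by omega) hα
  choose q hq using h1
  let s : ∀ k, {p // P k p} := fun k => Nat.rec ⟨(a0, b0), ha, hb, h0⟩ q k
  have h2 : ∀ f : ℕ → S, (∀ k, f k - f (k + 1) ∈ maximalIdeal S ^ k) →
      ∃ L, ∀ k, f k - L ∈ maximalIdeal S ^ k := fun f hf => by
    obtain ⟨L, hL⟩ := IsPrecomplete.prec (I := maximalIdeal S) (M := S) inferInstance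
      ((AdicCompletion.isAdicCauchy_iff _ _ f).2 fun k => by simpa [SModEq.sub_mem] using hf k)
    exact ⟨L, fun k => by simpa [SModEq.sub_mem] using hL k⟩
  obtain ⟨a, ha⟩ := h2 (fun k => (s k).1.1) fun k => (hq k (s k)).1
  obtain ⟨b, hb⟩ := h2 (fun k => (s k).1.2) fun k => (hq k (s k)).2
  refine ⟨a, b, by simpa using sub_mem (s 2).2.1 (ha 2), by simpa using sub_mem (s 2).2.2.1 (hb 2),
    Ideal.Quotient.eq_zero_iff_mem.1 (IsHausdorff.haus (I := maximalIdeal S) (M := S ⧸ J)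
      inferInstance _ fun k => ?_)⟩
  obtain ⟨j, hj, r, hr, h3⟩ := Submodule.mem_sup.1 (s k).2.2.2
  rw [SModEq.zero, show F - a * b = j + (r + ((s k).1.1 - a) * (s k).1.2 + ((s k).1.2 - b) * a) by
    linear_combination -h3, map_add, Ideal.Quotient.eq_zero_iff_mem.2 hj, zero_add,
    ← Ideal.Quotient.algebraMap_eq, Algebra.algebraMap_eq_smul_one]
  exact Submodule.smul_mem_smul (add_mem (add_mem (hle (by omega) hr)
    (Ideal.mul_mem_right _ _ (ha k))) (Ideal.mul_mem_right _ _ (hb k))) Submodule.mem_top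

/-- The splitting lemma in three variables. -/
theorem split [IsNoetherianRing S] [IsAdicComplete (maximalIdeal S) S]
    (hmax : maximalIdeal S = Ideal.span {x, y, z}) {F c : S}
    (h : F - x * y - c * z ^ 2 ∈ maximalIdeal S ^ 3) :
    ∃ a b, a - x ∈ maximalIdeal S ^ 2 ∧ b - y ∈ maximalIdeal S ^ 2 ∧
      (F = a * b ∨ ∃ n u, IsUnit u ∧ F = a * b + u * z ^ (n + 2)) := by
  have hz : z ∈ maximalIdeal S := hmax ▸ Ideal.subset_span (by simp)
  by_cases H : ∃ n a b γ, a - x ∈ maximalIdeal S ^ 2 ∧ b - y ∈ maximalIdeal S ^ 2 ∧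
      F - a * b - γ * z ^ (n + 2) ∈ maximalIdeal S ^ (n + 3) ∧ γ ∉ maximalIdeal S
  · obtain ⟨n, a0, b0, γ, ha, hb, h0, hγ⟩ := H
    obtain ⟨a, b, ha, hb, h1⟩ := limit hmax (F - γ * z ^ (n + 2))
      (Ideal.span {z ^ (n + 2)} * maximalIdeal S) n (fun k _ _ γ' _ _ _ => Ideal.mem_sup_left
        (Ideal.mem_span_singleton_mul.2 ⟨γ' * z ^ k * z, Ideal.mul_mem_left _ _ hz, by ring⟩))
      ha hb (Ideal.mem_sup_right (by rwa [sub_right_comm]))
    obtain ⟨t, ht, h2⟩ := Ideal.mem_span_singleton_mul.1 h1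
    exact ⟨a, b, ha, hb, Or.inr ⟨n, γ + t, notMem_maximalIdeal.1 fun h3 =>
      hγ (by simpa using sub_mem h3 ht), by linear_combination -h2⟩⟩
  · push Not at H
    have h1 : ∀ k, ∀ γ ∈ maximalIdeal S, γ * z ^ k ∈ maximalIdeal S ^ (k + 1) := fun k γ hγ =>
      pow_succ' (maximalIdeal S) k ▸ Ideal.mul_mem_mul hγ (Ideal.pow_mem_pow hz k)
    obtain ⟨a, b, ha, hb, h2⟩ := limit hmax F ⊥ 0 (fun k a b γ ha hb h2 => Ideal.mem_sup_right
      (h1 _ _ (H (0 + k + 1) a b γ ha hb (by rwa [bot_sup_eq] at h2)))) (a0 := x) (b0 := y)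
      (by simp) (by simp) (Ideal.mem_sup_right (by
        simpa using add_mem h (h1 2 c (H 0 x y c (by simp) (by simp) h))))
    exact ⟨a, b, ha, hb, Or.inl (sub_eq_zero.1 h2)⟩

theorem domain_of_quot [IsNoetherianRing S] {g : S} (hg : ∀ t, g * t = 0 → t = 0)
    (hp : (Ideal.span {g}).IsPrime) : IsDomain S := by
  have h1 : ∀ a : S, a ≠ 0 → ∃ (i : ℕ) (a' : S), a = g ^ i * a' ∧ a' ∉ Ideal.span {g} := by
    intro a ha
    by_contra! H
    have h2 : ∀ i : ℕ, ∃ a', a = g ^ i * a' := fun i => by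
      induction i with
      | zero => exact ⟨a, by simp⟩
      | succ i ih =>
        obtain ⟨a', h⟩ := ih
        obtain ⟨c, rfl⟩ := Ideal.mem_span_singleton'.1 (H i a' h)
        exact ⟨c, by rw [h]; ring⟩
    refine ha ((Submodule.mem_bot S).1 (Ideal.iInf_pow_eq_bot_of_isLocalRing _ hp.ne_top ▸
      Submodule.mem_iInf _ |>.2 fun i => ?_))
    rw [Ideal.span_singleton_pow]
    exact Ideal.mem_span_singleton.2 (h2 i)
  have h3 : ∀ (i : ℕ) t, g ^ i * t = 0 → t = 0 := fun i => by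
    induction i with
    | zero => simp
    | succ i ih => intro t ht; exact hg t (ih _ (by rw [← ht]; ring))
  have : NoZeroDivisors S := ⟨fun {a b} hab => by
    by_contra! H
    obtain ⟨i, a', rfl, ha⟩ := h1 a H.1
    obtain ⟨j, b', rfl, hb⟩ := h1 b H.2
    exact (hp.mem_or_mem (h3 (i + j) (a' * b') (by rw [← hab]; ring) ▸ zero_mem _)).elim ha hb⟩
  exact NoZeroDivisors.to_isDomain S

end Pool.Agent.Lib.MP_86e60f_al.Qd
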