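import Mathlib
import Pool.Agent.Lib.MP_86e60f_al.An.HW
import Pool.Agent.Lib.MP_86e60f_al.Fp.Main
import Pool.Agent.Lib.MP_86e60f_al.Qd.Split

set_option autoImplicit false

open IsLocalRing CategoryTheory Pool.Agent.Lib.MP_86e60f_al.An
open scoped TensorProduct

namespace Pool.Agent.Lib.MP_86e60f_al.Qd

section An

variable {A : Type} [CommRing A] [IsDomain A] [IsLocalRing A] [IsNoetherianRing A]
  [IsAdicComplete (maximalIdeal A) A] {x y z : A} {n : ℕ}

theorem hw_reg (h : IsAn A x y z n) {g : A} (hg : Prime g) (M : Type) [AddCommGroup M] [Module A M]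
    [Module (A ⧸ Ideal.span {g}) M] [IsScalarTower A (A ⧸ Ideal.span {g}) M] [Module.Finite A M]
    {c c' : A} (hc : c ∈ maximalIdeal A) (hcM : IsSMulRegular M c) (hc' : c' ∈ maximalIdeal A)
    (hcT' : IsSMulRegular (M ⊗[A] (M →ₗ[A] A ⧸ Ideal.span {g})) c') :
    Module.Free (A ⧸ Ideal.span {g}) M := by
  have hgM : ∀ v : M, g • v = 0 := fun v => by
    rw [← algebraMap_smul (A ⧸ Ideal.span {g}), Ideal.Quotient.algebraMap_eq,
      Ideal.Quotient.eq_zero_iff_mem.2 (Ideal.mem_span_singleton_self g), zero_smul]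
  obtain ⟨m, π, hπ⟩ := Module.Finite.exists_fin' A M
  have h3 := h.core π hπ {g} (by simpa using hg) (by simpa using hgM) hc hcM hc'
    (by rwa [Multiset.prod_singleton])
  have : Module.Free A (LinearMap.ker π) := Module.free_of_flat_of_isLocalRing
  let μ : (Fin m → A) →ₗ[A] LinearMap.ker π :=
    (g • LinearMap.id : (Fin m → A) →ₗ[A] (Fin m → A)).codRestrict _ fun f => by simp [hgM]
  have hμ : Function.Injective μ := fun a b e =>
    smul_right_injective _ hg.ne_zero (congrArg Subtype.val e)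
  let κ := LinearEquiv.ofFinrankEq (Fin m → A) (LinearMap.ker π) (le_antisymm
    (LinearMap.finrank_le_finrank_of_injective hμ)
    (LinearMap.finrank_le_finrank_of_injective (LinearMap.ker π).injective_subtype))
  refine free_of_mf hg (fun a ha => h.max_pow_le hg ha)
    ((LinearMap.ker π).subtype ∘ₗ κ.toLinearMap) (κ.symm.toLinearMap ∘ₗ μ) (fun f => ?_)
    (fun f => ?_) π hπ (fun f => ⟨fun hf => ⟨κ.symm ⟨f, hf⟩, by simp⟩, ?_⟩) hc' hcT'
  · simp only [LinearMap.comp_apply, LinearEquiv.coe_coe, LinearEquiv.apply_symm_apply]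
    rfl
  · have h4 : μ (κ f) = g • κ f := Subtype.ext rfl
    change κ.symm (μ (κ f)) = _
    rw [h4, map_smul, LinearEquiv.symm_apply_apply]
  · rintro ⟨w, rfl⟩
    exact (κ w).2

theorem hw_surj (h : IsAn A x y z n) {g : A} (hg : Prime g) {B : Type} [CommRing B] (ρ : A →+* B)
    (hs : Function.Surjective ρ) (hk : RingHom.ker ρ = Ideal.span {g}) (M : Type)
    [AddCommGroup M] [Module B M] [Module.Finite B M] {c c' : A} (hc : c ∈ maximalIdeal A)
    (hcM : IsSMulRegular M (ρ c)) (hc' : c' ∈ maximalIdeal A)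
    (hcT : IsSMulRegular (M ⊗[B] (M →ₗ[B] B)) (ρ c')) : Module.Free B M := by
  let _ := ρ.toAlgebra
  let e : (A ⧸ Ideal.span {g}) ≃ₐ[A] B := (Ideal.quotientEquivAlgOfEq A hk.symm).trans
    (Ideal.quotientKerAlgEquivOfSurjective (f := Algebra.ofId A B) hs)
  let _ := Module.compHom M ρ
  have : IsScalarTower A B M := IsScalarTower.of_compHom A B M
  let _ := Module.compHom M e.toRingEquiv.toRingHom
  have : IsScalarTower A (A ⧸ Ideal.span {g}) M :=
    IsScalarTower.of_algebraMap_smul fun a m => congrArg (· • m) (e.commutes a)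
  have : Module.Finite A B := Module.Finite.of_surjective (Algebra.linearMap A B) hs
  have : Module.Finite A M := Module.Finite.trans B M
  have := TensorProduct.CompatibleSMul.of_algebraMap_surjective (R := A) (A := B) M
    (M →ₗ[B] B) hs
  have e1 : (M →ₗ[A] A ⧸ Ideal.span {g}) ≃ₗ[A] (M →ₗ[B] B) := (LinearEquiv.congrRight
    e.toLinearEquiv).trans (LinearMap.extendScalarsOfSurjectiveEquiv (S := B) hs)
  have e' := (TensorProduct.congr (LinearEquiv.refl A M) e1).trans
    (TensorProduct.equivOfCompatibleSMul A B A M _).symm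
  have := hw_reg h hg M hc hcM hc' ((e'.isSMulRegular_congr c').2
    (hcT.of_map _ fun m => algebraMap_smul _ _ m))
  have := RingHomInvPair.of_ringEquiv e.toRingEquiv
  have := RingHomInvPair.of_ringEquiv_symm e.toRingEquiv
  exact Module.Free.of_equiv (σ := (e.toRingEquiv : (A ⧸ Ideal.span {g}) →+* B))
    { AddEquiv.refl M with map_smul' := fun _ _ => rfl }

end An

theorem exists_gen {S : Type} [CommRing S] [IsLocalRing S] [IsDomain S] {f g F : S}
    (hf : f ∈ maximalIdeal S ^ 2) (hg : g ∈ maximalIdeal S ^ 2) (hf1 : f ≠ 0)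
    (hfp : (Ideal.span {f}).IsPrime) (hgf : g ∉ Ideal.span {f}) (hF : F ∈ Ideal.span {f, g})
    (h3 : F ∉ maximalIdeal S ^ 3) : ∃ g', Ideal.span {F, g'} = Ideal.span {f, g} ∧
      ∀ t, g' * t ∈ Ideal.span {F} → t ∈ Ideal.span {F} := by
  have h0 : ∀ a b c d : S, IsUnit a → Ideal.span {a * b + c * d, d} = Ideal.span {b, d} :=
    fun a b c d ha => by
      rw [Ideal.span_pair_comm, Ideal.span_pair_add_mul_left, Ideal.span_insert,
        Ideal.span_singleton_mul_left_unit ha, ← Ideal.span_insert, Ideal.span_pair_comm]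
  obtain ⟨p, q, rfl⟩ := Ideal.mem_span_pair.1 hF
  by_cases h6 : IsUnit p
  · refine ⟨g, h0 _ _ _ _ h6, fun t ht => ?_⟩
    obtain ⟨s, hs⟩ := Ideal.mem_span_singleton'.1 ht
    obtain ⟨v, hv⟩ := Ideal.mem_span_singleton'.1 ((hfp.mem_or_mem (x := g) (y := t - q * s)
      (Ideal.mem_span_singleton'.2 ⟨s * p, by linear_combination hs⟩)).resolve_left hgf)
    have h7 : g * v = p * s := mul_left_cancel₀ hf1 (by linear_combination g * hv - hs)
    exact (Ideal.unit_mul_mem_iff_mem _ h6).1 (Ideal.mem_span_singleton'.2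
      ⟨v, by linear_combination p * hv + q * h7⟩)
  · have h7 : IsUnit q := by
      by_contra h7
      rw [pow_succ'] at h3
      exact h3 (add_mem (Ideal.mul_mem_mul h6 hf) (Ideal.mul_mem_mul h7 hg))
    refine ⟨f, by rw [add_comm, h0 _ _ _ _ h7, Ideal.span_pair_comm], fun t ht => ?_⟩
    obtain ⟨s, hs⟩ := Ideal.mem_span_singleton'.1 ht
    obtain ⟨v, rfl⟩ := Ideal.mem_span_singleton'.1 ((hfp.mem_or_mem (x := g) (y := s)
      ((Ideal.unit_mul_mem_iff_mem _ h7).1 (Ideal.mem_span_singleton'.2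
        ⟨t - p * s, by linear_combination -hs⟩))).resolve_left hgf)
    exact Ideal.mem_span_singleton'.2 ⟨v, mul_left_cancel₀ hf1 (by linear_combination hs)⟩

theorem hw_an {S : Type} [CommRing S] [IsLocalRing S] [IsNoetherianRing S]
    [IsAdicComplete (maximalIdeal S) S] {x y z F g : S} {n : ℕ} (hn : 2 ≤ n)
    (hreg : RingTheory.Sequence.IsRegular S [x, y, z])
    (hmax : maximalIdeal S = Ideal.span {x, y, z})
    (hG : Ideal.span {x * y - z ^ n} = Ideal.span {F})
    (h5 : ∀ t, g * t ∈ Ideal.span {F} → t ∈ Ideal.span {F})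
    {B : Type} [CommRing B] [IsDomain B] (ρ : S →+* B) (hs : Function.Surjective ρ)
    (hk : RingHom.ker ρ = Ideal.span {F, g}) (M : Type) [AddCommGroup M] [Module B M]
    [Module.Finite B M] {c c' : S} (hc : c ∈ maximalIdeal S) (hcM : IsSMulRegular M (ρ c))
    (hc' : c' ∈ maximalIdeal S) (hcT : IsSMulRegular (M ⊗[B] (M →ₗ[B] B)) (ρ c')) :
    Module.Free B M := by
  have hp : (Ideal.span {F, g}).IsPrime := hk ▸ RingHom.ker_isPrime ρ
  have hFP : Ideal.span {F} ≤ Ideal.span {F, g} := Ideal.span_mono (by simp)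
  have := Ideal.Quotient.nontrivial_iff.2 (ne_top_of_le_ne_top hp.ne_top hFP)
  have : IsLocalRing (S ⧸ Ideal.span {F}) := .of_surjective' _ Ideal.Quotient.mk_surjective
  have := IsLocalHom.of_surjective _ (Ideal.Quotient.mk_surjective (I := Ideal.span {F}))
  have h6 : (Ideal.span {F, g}).map (Ideal.Quotient.mk (Ideal.span {F})) =
      Ideal.span {Ideal.Quotient.mk (Ideal.span {F}) g} := by
    rw [Ideal.map_span, Set.image_pair,
      Ideal.Quotient.eq_zero_iff_mem.2 (Ideal.mem_span_singleton_self F), Ideal.span_insert_zero]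
  have h7 : (Ideal.span {Ideal.Quotient.mk (Ideal.span {F}) g}).IsPrime := by
    rw [← h6]
    exact Ideal.map_isPrime_of_surjective Ideal.Quotient.mk_surjective (by rwa [Ideal.mk_ker])
  have h8 : ∀ t, Ideal.Quotient.mk (Ideal.span {F}) g * t = 0 → t = 0 := fun t ht => by
    obtain ⟨t, rfl⟩ := Ideal.Quotient.mk_surjective t
    exact Ideal.Quotient.eq_zero_iff_mem.2 (h5 t (Ideal.Quotient.eq_zero_iff_mem.1 ht))
  have := domain_of_quot h8 h7
  have : IsAdicComplete (maximalIdeal (S ⧸ Ideal.span {F})) (S ⧸ Ideal.span {F}) := by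
    rw [← IsLocalRing.map_maximalIdeal_of_surjective (algebraMap S (S ⧸ Ideal.span {F}))
      Ideal.Quotient.mk_surjective, IsAdicComplete.map_algebraMap_iff]
    have := precomplete_of_finite (maximalIdeal S) (S ⧸ Ideal.span {F})
    exact ⟨⟩
  have h9 : ∀ t ∈ Ideal.span {F}, ρ t = 0 := fun t ht => hk.ge (hFP ht)
  have h10 := isAn_of hreg hmax hn (Ideal.Quotient.mk (Ideal.span {F}))
    Ideal.Quotient.mk_surjective (Ideal.mk_ker.trans hG.symm)
  have h11 : Prime (Ideal.Quotient.mk (Ideal.span {F}) g) :=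
    (Ideal.span_singleton_prime fun h => one_ne_zero (h8 1 (by rw [h, zero_mul]))).1 h7
  exact hw_surj h10 h11 (Ideal.Quotient.lift _ ρ h9)
    (Ideal.Quotient.lift_surjective_of_surjective _ h9 hs)
    (by rw [Ideal.ker_quotient_lift, hk, h6]) M (c := Ideal.Quotient.mk _ c)
    (c' := Ideal.Quotient.mk _ c') (map_nonunit (Ideal.Quotient.mk _) c hc) hcM
    (map_nonunit (Ideal.Quotient.mk _) c' hc') hcT

/-- The Huneke-Wiegand property for the complete intersection domains `S / (f, g)` that lie on a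
surface whose equation has a split quadratic part of rank at least two. -/
theorem hw_quad {S : Type} [CommRing S] [IsLocalRing S] [IsNoetherianRing S]
    [IsAdicComplete (maximalIdeal S) S] {x y z : S}
    (hreg : RingTheory.Sequence.IsRegular S [x, y, z])
    (hmax : maximalIdeal S = Ideal.span {x, y, z}) {f g : S} (hf : f ∈ maximalIdeal S ^ 2)
    (hg : g ∈ maximalIdeal S ^ 2) (hf0 : ∀ t, f * t = 0 → t = 0) (hfp : (Ideal.span {f}).IsPrime)
    (hgf : g ∉ Ideal.span {f})
    (hq : x * y ∈ Ideal.span {f, g} ⊔ Ideal.span {z ^ 2} ⊔ maximalIdeal S ^ 3)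
    {B : Type} [CommRing B] [IsDomain B] (ρ : S →+* B) (hs : Function.Surjective ρ)
    (hk : RingHom.ker ρ = Ideal.span {f, g}) (M : Type) [AddCommGroup M] [Module B M]
    [Module.Finite B M] {c c' : S} (hc : c ∈ maximalIdeal S) (hcM : IsSMulRegular M (ρ c))
    (hc' : c' ∈ maximalIdeal S) (hcT : IsSMulRegular (M ⊗[B] (M →ₗ[B] B)) (ρ c')) :
    Module.Free B M := by
  have := domain_of_quot hf0 hfp
  have hf1 : f ≠ 0 := fun h => one_ne_zero (hf0 1 (by rw [h, zero_mul]))
  have hP : Ideal.span {f, g} ≤ maximalIdeal S ^ 2 := Ideal.span_le.2 (by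
    rintro _ (rfl | rfl)
    exacts [hf, hg])
  have hp : (Ideal.span {f, g}).IsPrime := hk ▸ RingHom.ker_isPrime ρ
  obtain ⟨w, hw, r, hr, h1⟩ := Submodule.mem_sup.1 hq
  obtain ⟨F, hF, w', hw', rfl⟩ := Submodule.mem_sup.1 hw
  obtain ⟨d, rfl⟩ := Ideal.mem_span_singleton'.1 hw'
  have h2 : F - x * y - -d * z ^ 2 ∈ maximalIdeal S ^ 3 := by
    rw [show F - x * y - -d * z ^ 2 = -r by linear_combination h1]; exact neg_mem hr
  have h3 : F ∉ maximalIdeal S ^ 3 := fun h => notMem_cube hmax hreg (-d) (by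
    convert sub_mem h h2 using 1; ring)
  have hm1 : maximalIdeal S = Ideal.span {z, x, y} := by rw [hmax]; congr 1; ext; simp; tauto
  have hm2 : maximalIdeal S = Ideal.span {y, z, x} := by rw [hmax]; congr 1; ext; simp; tauto
  have hr1 : RingTheory.Sequence.IsRegular S [z, x, y] := IsLocalRing.isRegular_of_perm hreg
    (((List.Perm.swap z y []).cons x).trans (List.Perm.swap z x [y]))
  have hr2 : RingTheory.Sequence.IsRegular S [y, z, x] := IsLocalRing.isRegular_of_perm hreg
    ((List.Perm.swap y x [z]).trans ((List.Perm.swap z x []).cons y))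
  have hone := (Ideal.ne_top_iff_one _).1 (maximalIdeal.isMaximal S).ne_top
  obtain ⟨g', h4, h5⟩ := exists_gen hf hg hf1 hfp hgf hF h3
  obtain ⟨a, b, ha, hb, hF' | ⟨n, u, hu, hF'⟩⟩ := split hmax h2
  · rcases hp.mem_or_mem (hF' ▸ hF) with h | h
    · exact absurd (notMem_sq hm2 hr2 (u := 1) (a := 0) (b := 0)
        (by convert sub_mem (hP h) ha using 1; ring)) hone
    · exact absurd (notMem_sq hm1 hr1 (u := 1) (a := 0) (b := 0)
        (by convert sub_mem (hP h) hb using 1; ring)) hone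
  obtain ⟨v, hv⟩ := hu.exists_left_inv
  have hv' : IsUnit (-v) := (IsUnit.of_mul_eq_one u hv).neg
  obtain ⟨m1, r1⟩ := perturb hm1 hr1 (z' := b) isUnit_one (by rwa [one_mul])
  obtain ⟨m2, r2⟩ := perturb m1 r1 (z' := -v * a) hv' (by
    rw [← mul_sub]; exact Ideal.mul_mem_left _ _ ha)
  refine hw_an (Nat.le_add_left 2 n) r2 m2 ?_ h5 ρ hs (hk.trans h4.symm) M hc hcM hc' hcT
  rw [← Ideal.span_singleton_mul_left_unit hv' F,
    show -v * F = -v * a * b - z ^ (n + 2) by linear_combination -v * hF' - z ^ (n + 2) * hv]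

/-- Condition `(C_2)` for these curves. -/
theorem c2_quad {S : Type} [CommRing S] [IsLocalRing S] [IsNoetherianRing S]
    [IsAdicComplete (maximalIdeal S) S] {x y z : S}
    (hreg : RingTheory.Sequence.IsRegular S [x, y, z])
    (hmax : maximalIdeal S = Ideal.span {x, y, z}) {f : S} (hf : f ∈ maximalIdeal S ^ 2)
    (hf0 : RingTheory.Sequence.IsRegular S [f]) {R : Type} [CommRing R] [IsLocalRing R]
    [IsDomain R] (π : S →+* R) (hπ : Function.Surjective π)
    (hker : RingHom.ker π = Ideal.span {f}) {g : S} (hg2 : g ∈ maximalIdeal S ^ 2)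
    (hg : Prime (π g))
    (hq : x * y ∈ Ideal.span {f, g, z ^ 2} ⊔ maximalIdeal S ^ 3)
    (M : Type) [AddCommGroup M] [Module R M] [Module (R ⧸ Ideal.span {π g}) M]
    [IsScalarTower R (R ⧸ Ideal.span {π g}) M] [Module.Finite R M] (hM : IsCMOfCodim R M 1)
    (hT : IsCMOfCodim R (M ⊗[R] Abelian.Ext.{0} (ModuleCat.of R M) (ModuleCat.of R R) 1) 1) :
    Module.Free (R ⧸ Ideal.span {π g}) M ∧ projectiveDimension (ModuleCat.of R M) ≠ ⊤ := by
  have : IsNoetherianRing R := isNoetherianRing_of_surjective S R π hπ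
  have := IsLocalHom.of_surjective π hπ
  have hp : (Ideal.span {π g}).IsPrime := (Ideal.span_singleton_prime hg.ne_zero).2 hg
  have hp1 : Ideal.span {π g} < maximalIdeal R :=
    lt_of_le_of_ne (le_maximalIdeal hp.ne_top) fun e => by
      have h1 := Ideal.mem_map_of_mem π hg2
      rw [Ideal.map_pow, IsLocalRing.map_maximalIdeal_of_surjective π hπ, ← e,
        Ideal.span_singleton_pow] at h1
      obtain ⟨t, ht⟩ := Ideal.mem_span_singleton'.1 h1
      exact hg.not_isUnit (IsUnit.of_mul_eq_one t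
        (mul_left_cancel₀ hg.ne_zero (by linear_combination ht)))
  have hp0 : ⊥ < Ideal.span {π g} :=
    bot_lt_iff_ne_bot.2 (Ideal.span_singleton_eq_bot.not.2 hg.ne_zero)
  obtain ⟨c, hc, hcM⟩ := An.exists_reg _ hp0 hp1 hM
  obtain ⟨c', hc', hcT⟩ := An.exists_reg _ hp0 hp1 hT
  have hw : RingTheory.Sequence.IsWeaklyRegular R [π g] :=
    (RingTheory.Sequence.isWeaklyRegular_singleton_iff _ _).2
      (IsRegular.of_ne_zero hg.ne_zero).isSMulRegular
  obtain ⟨-, ⟨e⟩⟩ := rees (ModuleCat.of R M) [π g] (fun r hr => by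
    obtain rfl := List.mem_singleton.1 hr
    exact Module.mem_annihilator.2 fun v => by
      rw [← algebraMap_smul (R ⧸ Ideal.span {π g}), Ideal.Quotient.algebraMap_eq,
        Ideal.Quotient.eq_zero_iff_mem.2 (Ideal.mem_span_singleton_self _), zero_smul])
    (ModuleCat.of R R) hw
  have h2 : (Ideal.ofList [π g] • ⊤ : Submodule R R) = Ideal.span {π g} := by
    rw [smul_eq_mul, Ideal.mul_top, Ideal.ofList_singleton]
  have := TensorProduct.CompatibleSMul.of_algebraMap_surjective (A := R ⧸ Ideal.span {π g}) M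
    (M →ₗ[R ⧸ Ideal.span {π g}] R ⧸ Ideal.span {π g}) Ideal.Quotient.mk_surjective
  have e' := (TensorProduct.congr (LinearEquiv.refl R M)
    ((e.trans (LinearEquiv.congrRight (Submodule.quotEquivOfEq _ _ h2))).trans
      (LinearMap.extendScalarsOfSurjectiveEquiv (S := R ⧸ Ideal.span {π g})
        Ideal.Quotient.mk_surjective))).trans
    (TensorProduct.equivOfCompatibleSMul R (R ⧸ Ideal.span {π g}) R M _).symm
  have : Module.Finite (R ⧸ Ideal.span {π g}) M := Module.Finite.of_restrictScalars_finite R _ _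
  obtain ⟨c, rfl⟩ := hπ c
  obtain ⟨c', rfl⟩ := hπ c'
  have h3 := hw_quad hreg hmax hf hg2
    (fun t => ((RingTheory.Sequence.isWeaklyRegular_singleton_iff _ _).1
      hf0.1).right_eq_zero_of_smul) (hker ▸ RingHom.ker_isPrime π)
    (fun h => hg.ne_zero (hker.ge h))
    (by rwa [Ideal.span_insert, Ideal.span_insert, ← sup_assoc, ← Ideal.span_insert] at hq)
    ((Ideal.Quotient.mk (Ideal.span {π g})).comp π) (Ideal.Quotient.mk_surjective.comp hπ) (by
      rw [← RingHom.comap_ker, Ideal.mk_ker, ← Set.image_singleton, ← Ideal.map_span,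
        Ideal.comap_map_of_surjective π hπ, ← RingHom.ker_eq_comap_bot, hker, Ideal.span_insert,
        sup_comm]) M (fun h => hc (h.map π))
    (hcM.map (algebraMap R (R ⧸ Ideal.span {π g})) fun m => algebraMap_smul _ _ m)
    (fun h => hc' (h.map π)) (((e'.isSMulRegular_congr _).1 hcT).map
      (algebraMap R (R ⧸ Ideal.span {π g})) fun m => algebraMap_smul _ _ m)
  have h4 : ∀ (I : Ideal R) [Module (R ⧸ I) M] [IsScalarTower R (R ⧸ I) M] [Module.Free (R ⧸ I) M],
      Ideal.ofList [π g] = I → projectiveDimension (ModuleCat.of R M) ≠ ⊤ := by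
    rintro _ _ _ _ rfl
    have := hM.1
    exact Fp.pd_ne_top ((IsLocalRing.isRegular_iff_isWeaklyRegular_of_subset_maximalIdeal
      (by simpa using hg.not_isUnit)).2 hw) M
  exact ⟨h3, h4 _ (Ideal.ofList_singleton _)⟩

end Pool.Agent.Lib.MP_86e60f_al.Qd
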